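import Pool.Agent.Q202.Iso.Defs
import Pool.Agent.Q202.Iso.Final

/-!
# Two finitely generated isotypic algebras that are not isomorphic
-/

namespace Pool.Agent.Results.MP_c850b7_lc.NotIsomorphic

open FirstOrder FirstOrder.Language Q202.Iso

/-- **Theorem.** There are a countable signature `L` (operation symbols only) and finitely
generated `L`-algebras `H₁`, `H₂` which are isotypic but not isomorphic. -/
theorem result :
    ∃ (L : Language.{0, 0}) (_ : L.IsAlgebraic) (_ : Countable L.Symbols)
      (H₁ H₂ : Type) (_ : L.Structure H₁) (_ : L.Structure H₂),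
      Structure.FG L H₁ ∧ Structure.FG L H₂ ∧ Isotypic L H₁ H₂ ∧ ¬ Nonempty (H₁ ≃[L] H₂) :=
  ⟨Lg, inferInstance, inferInstance, H (Fin 1), H (Fin 2), inferInstance, inferInstance,
    fg_of_finite _, fg_of_finite _,
    isotypic_of_typesLE (typesLE_of_emb ⟨fun _ => 0, fun _ _ _ => Subsingleton.elim _ _⟩)
      (typesLE_any _), not_iso⟩

end Pool.Agent.Results.MP_c850b7_lc.NotIsomorphic
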